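import Pool.Agent.Helper36.LX.Sheet
import Pool.Agent.Helper10.LG.LF

/-! Project LX, row LFR: the robust inequality at the edges whose child is a leaf. -/

set_option autoImplicit false

namespace H11ST
namespace LX
namespace S45

open LG LG.LFaux

/-- as `LG.LFaux.core`, with `≤ 1` for the sum of the coordinates -/
theorem core {ι : Type} [DecidableEq ι] (S : Finset ι) (v : ι → ℝ) (a ℓ : ℝ)
    (h0 : ∀ k ∈ S, 0 ≤ v k) (ha : 0 ≤ a) (hs : a + ∑ k ∈ S, v k ≤ 1) (hℓ : 0 < ℓ)
    (hℓ2 : ℓ ^ 2 = (1 - a) ^ 2 + ∑ k ∈ S, v k ^ 2) :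
    8 / 100 ≤ ℓ + ((1 - a) * (7 / 8 - FF a) + ∑ k ∈ S, v k * FF (v k)) / ℓ - 3 / 2 + 3 * Th a -
      ∑ k ∈ S, Th (v k) := by
  by_cases hbig : ∃ k0 ∈ S, 1 / 2 < v k0
  · obtain ⟨k0, hk0, hb⟩ := hbig
    have e1 := Finset.add_sum_erase S v hk0
    have e2 := Finset.add_sum_erase S (fun k => v k ^ 2) hk0
    have e3 := Finset.add_sum_erase S (fun k => v k * FF (v k)) hk0
    have e4 := Finset.add_sum_erase S (fun k => Th (v k)) hk0
    set b := v k0 with hbdef
    set r := ∑ k ∈ S.erase k0, v k with hr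
    set q := ∑ k ∈ S.erase k0, v k ^ 2 with hq
    have hv0 : ∀ k ∈ S.erase k0, 0 ≤ v k := fun k hk => h0 k (Finset.mem_of_mem_erase hk)
    have hvr : ∀ k ∈ S.erase k0, v k ≤ r := fun k hk => Finset.single_le_sum hv0 hk
    have hr0 : 0 ≤ r := Finset.sum_nonneg hv0
    have hab : a + (b + r) ≤ 1 := by rw [e1]; exact hs
    have hqr : q ≤ r ^ 2 := by
      calc q ≤ ∑ k ∈ S.erase k0, r * v k := Finset.sum_le_sum fun k hk => by
            nlinarith [hv0 k hk, hvr k hk]
        _ = r * r := by rw [← Finset.mul_sum]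
        _ = r ^ 2 := by ring
    have e5 : ∑ k ∈ S.erase k0, Th (v k) = q := Finset.sum_congr rfl fun k hk => by
      have := hvr k hk
      rw [Th, if_pos (by linarith)]
    have e6 : ∑ k ∈ S.erase k0, v k * FF (v k) = ∑ k ∈ S.erase k0, 2 * v k ^ 3 :=
      Finset.sum_congr rfl fun k hk => by
        have := hvr k hk
        rw [FF, if_pos (by linarith)]
        ring
    have e7 : ℓ * q - ℓ ^ 2 / 8 * r ≤ ∑ k ∈ S.erase k0, 2 * v k ^ 3 := by
      rw [hq, hr, Finset.mul_sum, Finset.mul_sum, ← Finset.sum_sub_distrib]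
      apply Finset.sum_le_sum
      intro k hk
      have := mul_nonneg (hv0 k hk) (sq_nonneg (4 * v k - ℓ))
      nlinarith
    have hFa : FF a = 2 * a ^ 2 := by rw [FF, if_pos (by linarith)]
    have hTa : Th a = a ^ 2 := by rw [Th, if_pos (by linarith)]
    have hFb : FF b = b ^ 2 / 2 + 3 / 8 := by rw [FF, if_neg (by linarith)]
    have hTb : Th b = b ^ 2 / 2 + 1 / 8 := by rw [Th, if_neg (by linarith)]
    have hℓ3 : ℓ ^ 2 = (1 - a) ^ 2 + (b ^ 2 + q) := by rw [hℓ2, ← e2]
    have hℓ4 : ℓ ≤ 142 / 100 := by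
      have h1 : ℓ ^ 2 ≤ 2 := by
        rw [hℓ3]
        have hbr : 0 ≤ b * r := mul_nonneg (by linarith) hr0
        have h2 : b ^ 2 + q ≤ (b + r) ^ 2 := by
          have : (b + r) ^ 2 = b ^ 2 + r ^ 2 + 2 * (b * r) := by ring
          linarith
        have h3 : b + r ≤ 1 := by linarith
        have h5 : (b + r) ^ 2 ≤ 1 := by nlinarith
        have h4 : (1 - a) ^ 2 ≤ 1 := by
          have : 0 ≤ a * (2 - a) := mul_nonneg ha (by linarith)
          have e : (1 - a) ^ 2 = 1 - a * (2 - a) := by ring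
          linarith
        linarith
      by_contra hc
      push Not at hc
      nlinarith
    have hquad := quad3 a b ha hb.le (by linarith)
    set R : ℝ := 1705 / 1000 - 3 * a ^ 2 + b ^ 2 / 2 + 18 / 100 * (1 - a - b) with hR
    set C : ℝ := (1 - a) * (7 / 8 - 2 * a ^ 2) + b ^ 3 / 2 + 3 * b / 8 with hC
    have hRC : R * ℓ ≤ ℓ ^ 2 + C := root_le hquad
    rw [← e3, ← e4, e5, e6, hFa, hTa, hFb, hTb]
    have hgoal : 8 / 100 + 3 / 2 - 3 * a ^ 2 + (b ^ 2 / 2 + 1 / 8 + q) ≤
        ℓ + ((1 - a) * (7 / 8 - 2 * a ^ 2) + (b * (b ^ 2 / 2 + 3 / 8) +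
          ∑ k ∈ S.erase k0, 2 * v k ^ 3)) / ℓ := by
      apply le_add_div hℓ
      have h6 : ℓ ^ 2 / 8 * r ≤ 18 / 100 * r * ℓ := by
        have h5 : 0 ≤ r * ℓ := mul_nonneg hr0 hℓ.le
        have h9 : ℓ ^ 2 / 8 * r = (r * ℓ) * (ℓ / 8) := by ring
        have h10 : 18 / 100 * r * ℓ = (r * ℓ) * (18 / 100) := by ring
        rw [h9, h10]
        exact mul_le_mul_of_nonneg_left (by linarith) h5
      have h7 : (1 - a) * (7 / 8 - 2 * a ^ 2) + (b * (b ^ 2 / 2 + 3 / 8) +
          ∑ k ∈ S.erase k0, 2 * v k ^ 3) = C + ∑ k ∈ S.erase k0, 2 * v k ^ 3 := by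
        rw [hC]; ring
      have h8 : 8 / 100 + 3 / 2 - 3 * a ^ 2 + (b ^ 2 / 2 + 1 / 8 + q) ≤
          R - 18 / 100 * r + q := by
        rw [hR]; linarith
      rw [h7]
      refine le_trans (mul_le_mul_of_nonneg_right h8 hℓ.le) ?_
      exact fin_le hRC h6 e7
    linarith
  · push Not at hbig
    have e5 : ∑ k ∈ S, Th (v k) = ∑ k ∈ S, v k ^ 2 := Finset.sum_congr rfl fun k hk => by
      rw [Th, if_pos (hbig k hk)]
    have e6 : ∑ k ∈ S, v k * FF (v k) = ∑ k ∈ S, 2 * v k ^ 3 :=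
      Finset.sum_congr rfl fun k hk => by
        rw [FF, if_pos (hbig k hk)]
        ring
    rw [e5, e6, ← Finset.mul_sum]
    set q := ∑ k ∈ S, v k ^ 2 with hq
    set c := ∑ k ∈ S, v k ^ 3 with hc
    have hx0 : 0 ≤ 1 - a := by
      have := Finset.sum_nonneg h0
      linarith
    have hxs : ∑ k ∈ S, v k ≤ 1 - a := by linarith
    have hq0 : 0 ≤ q := Finset.sum_nonneg fun k _ => sq_nonneg _
    have hc0 : 0 ≤ c := Finset.sum_nonneg fun k hk => by
      have := h0 k hk
      positivity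
    have hCS : q ^ 2 ≤ (1 - a) * c := by
      have h1 : q ^ 2 ≤ (∑ k ∈ S, v k) * c := by
        apply Finset.sum_sq_le_sum_mul_sum_of_sq_le_mul
        · exact h0
        · intro k hk
          have := h0 k hk
          positivity
        · intro k _
          exact le_of_eq (by ring)
      exact h1.trans (mul_le_mul_of_nonneg_right hxs hc0)
    rcases hx0.eq_or_lt with hx | hx
    · exfalso
      have h1 : q = 0 := by
        rw [hq]
        apply Finset.sum_eq_zero
        intro k hk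
        have h2 : v k ≤ 0 := by
          have := Finset.single_le_sum h0 hk
          linarith
        have h3 := h0 k hk
        nlinarith
      rw [h1, ← hx] at hℓ2
      nlinarith
    · obtain ⟨x, hxa⟩ : ∃ x, a = 1 - x := ⟨1 - a, by ring⟩
      subst hxa
      have hx' : 0 < x := by linarith
      obtain ⟨t, hℓt⟩ : ∃ t, ℓ = x * (1 + t) := ⟨ℓ / x - 1, by field_simp; ring⟩
      have hqt : q = x ^ 2 * (2 * t + t ^ 2) := by
        have : q = ℓ ^ 2 - x ^ 2 := by rw [hℓ2]; ring
        rw [this, hℓt]; ring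
      have ht : 0 ≤ t := by
        by_contra hct
        push Not at hct
        have h1 : 0 < 1 + t := by
          by_contra h2
          push Not at h2
          have := mul_nonpos_of_nonneg_of_nonpos hx'.le h2
          linarith
        have h2 : x ^ 2 * (2 * t + t ^ 2) < 0 := by
          apply mul_neg_of_pos_of_neg (by positivity)
          nlinarith
        linarith
      have hct : x ^ 3 * (2 * t + t ^ 2) ^ 2 ≤ c := by
        have h1 : x * (x ^ 3 * (2 * t + t ^ 2) ^ 2) ≤ x * c := by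
          calc x * (x ^ 3 * (2 * t + t ^ 2) ^ 2) = q ^ 2 := by rw [hqt]; ring
            _ ≤ (1 - (1 - x)) * c := hCS
            _ = x * c := by ring
        exact le_of_mul_le_mul_left h1 hx'
      by_cases ha2 : 1 - x ≤ 1 / 2
      · have hFa : FF (1 - x) = 2 * (1 - x) ^ 2 := by rw [FF, if_pos ha2]
        have hTa : Th (1 - x) = (1 - x) ^ 2 := by rw [Th, if_pos ha2]
        rw [hFa, hTa]
        have hgoal : 8 / 100 + 3 / 2 - 3 * (1 - x) ^ 2 + q ≤
            ℓ + ((1 - (1 - x)) * (7 / 8 - 2 * (1 - x) ^ 2) + 2 * c) / ℓ := by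
          apply le_add_div hℓ
          have h1 := mul_nonneg hx'.le (quad1 t x ht)
          rw [hqt, hℓt]
          nlinarith
        linarith
      · have hFa : FF (1 - x) = (1 - x) ^ 2 / 2 + 3 / 8 := by rw [FF, if_neg ha2]
        have hTa : Th (1 - x) = (1 - x) ^ 2 / 2 + 1 / 8 := by rw [Th, if_neg ha2]
        rw [hFa, hTa]
        have hgoal : 8 / 100 + 3 / 2 - 3 * ((1 - x) ^ 2 / 2 + 1 / 8) + q ≤
            ℓ + ((1 - (1 - x)) * (7 / 8 - ((1 - x) ^ 2 / 2 + 3 / 8)) + 2 * c) / ℓ := by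
          apply le_add_div hℓ
          have h1 := mul_nonneg hx'.le (quad2 t x ht)
          rw [hqt, hℓt]
          nlinarith
        linarith

theorem FF_nonneg (x : ℝ) : 0 ≤ FF x := by
  rw [FF]; split_ifs <;> positivity

theorem FF_le (x : ℝ) (h0 : 0 ≤ x) (h1 : x ≤ 1) : FF x ≤ x := by
  rw [FF]; split_ifs with h
  · nlinarith
  · push Not at h
    nlinarith

theorem FF_le' (x : ℝ) (h0 : 0 ≤ x) (h1 : x ≤ 1) : FF x ≤ 7 / 8 := by
  rw [FF]; split_ifs with h
  · nlinarith
  · nlinarith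

/-- change of the length -/
theorem perturb (B L l : ℝ) (hL : 1 / 10 ≤ L) (hl : 0 < l) (hB0 : 0 ≤ B)
    (hB : B ≤ 7 / 4 * L ^ 2) (h : |l ^ 2 - L ^ 2| ≤ 1 / 100000) :
    L + B / L ≤ l + B / l + 8 / 1000 := by
  have hL0 : 0 < L := by linarith
  have h1 := abs_le.1 h
  have h2 : |l - L| ≤ 1 / 10000 := by
    rw [abs_le]
    constructor
    · by_contra hc
      push Not at hc
      nlinarith
    · by_contra hc
      push Not at hc
      nlinarith
  have h3 := abs_le.1 h2
  have h4 : 999 / 1000 * L ≤ l := by linarith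
  have h5 : B / L ≤ B / l + 2 / 1000 := by
    rw [div_le_iff₀ hL0]
    have h6 : (B / l + 2 / 1000) * L = B * (L / l) + 2 / 1000 * L := by
      field_simp
    rw [h6]
    -- L / l ≥ 1 - 1/(10000 l)
    have h7 : 1 - 1 / 10000 / l ≤ L / l := by
      rw [le_div_iff₀ hl]
      have : (1 - 1 / 10000 / l) * l = l - 1 / 10000 := by field_simp
      rw [this]
      linarith
    have h8 : B * (1 - 1 / 10000 / l) ≤ B * (L / l) := mul_le_mul_of_nonneg_left h7 hB0
    have h9 : B * (1 / 10000 / l) ≤ 2 / 1000 * L := by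
      rw [mul_div_assoc', div_le_iff₀ hl]
      have h10 : L * (999 / 1000 * L) ≤ L * l := mul_le_mul_of_nonneg_left h4 hL0.le
      nlinarith
    nlinarith
  linarith

end S45

open LG S45

theorem lfr : LX_LFR := by
  intro m a x l ha0 ha1 hx hsum _hq hl hl2
  have hxs0 : 0 ≤ ∑ k, x k := Finset.sum_nonneg fun k _ => hx k
  have hx1 : ∀ k, x k ≤ 1 - a := by
    intro k
    have := Finset.single_le_sum (fun i _ => hx i) (Finset.mem_univ k)
    linarith
  have hBnn : 0 ≤ (1 - a) * (7 / 8 - FF a) + ∑ k, x k * FF (x k) := by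
    have h1 : 0 ≤ (1 - a) * (7 / 8 - FF a) :=
      mul_nonneg (by linarith) (by have := FF_le' a ha0 ha1; linarith)
    have h2 : 0 ≤ ∑ k, x k * FF (x k) :=
      Finset.sum_nonneg fun k _ => mul_nonneg (hx k) (FF_nonneg _)
    linarith
  by_cases ha9 : 9 / 10 ≤ a
  · have hTa : Th a = a ^ 2 / 2 + 1 / 8 := by rw [Th, if_neg (by linarith)]
    have hTx : ∑ k, Th (x k) ≤ 1 / 100 := by
      calc ∑ k, Th (x k) ≤ ∑ k, 1 / 10 * x k := by
            apply Finset.sum_le_sum
            intro k _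
            have h1 := hx1 k
            have h2 := hx k
            rw [Th, if_pos (by linarith)]
            nlinarith
        _ = 1 / 10 * ∑ k, x k := by rw [Finset.mul_sum]
        _ ≤ 1 / 100 := by linarith
    have h1 : 0 ≤ ((1 - a) * (7 / 8 - FF a) + ∑ k, x k * FF (x k)) / l :=
      div_nonneg hBnn hl.le
    rw [hTa]
    nlinarith
  · push Not at ha9
    have hq0 : 0 ≤ ∑ k, x k ^ 2 := Finset.sum_nonneg fun k _ => sq_nonneg _
    obtain ⟨L, hL⟩ : ∃ L : ℝ, L = Real.sqrt ((1 - a) ^ 2 + ∑ k, x k ^ 2) := ⟨_, rfl⟩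
    have hL2 : L ^ 2 = (1 - a) ^ 2 + ∑ k, x k ^ 2 := by
      rw [hL, Real.sq_sqrt (by positivity)]
    have hL10 : 1 / 10 ≤ L := by
      rw [hL]
      apply Real.le_sqrt_of_sq_le
      nlinarith
    have hc := core Finset.univ x a L (fun k _ => hx k) ha0 hsum (by linarith) hL2
    have hB : (1 - a) * (7 / 8 - FF a) + ∑ k, x k * FF (x k) ≤ 7 / 4 * L ^ 2 := by
      have h1 : ∑ k, x k * FF (x k) ≤ ∑ k, x k ^ 2 := by
        apply Finset.sum_le_sum
        intro k _
        have h2 := FF_le (x k) (hx k) (by have := hx1 k; linarith)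
        have h3 := hx k
        nlinarith
      have h4 : (1 - a) * (7 / 8 - FF a) ≤ 7 / 4 * (1 - a) ^ 2 := by
        have h5 : 7 / 8 - FF a ≤ 7 / 4 * (1 - a) := by
          rw [FF]; split_ifs with h
          · nlinarith
          · push Not at h
            nlinarith
        nlinarith
      rw [hL2]
      linarith
    have hp := perturb _ L l hL10 hl hBnn hB (by rw [hL2]; exact hl2)
    linarith

end LX
end H11ST
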